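import Pool.Agent.H136R3.Cheese

set_option autoImplicit false

/-!
# Swiss cheeses always have nonpeak points without bounded point derivations

Sketch. Suppose that every nonpeak point has a nonzero bounded point derivation. Let `x₀` be a
nonpeak point, `G` the set of points whose evaluation has distance `< 1/2` from the one at `x₀`,
and `T` its closure; all points of `T` are nonpeak. By the Baire category theorem there is an open
disc meeting `T` on which the norms of the derivations are bounded. If the derivation at `y` is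
bounded, then in every small disc of radius `t` containing `y` in its closure most points `w` (for
area) are in `X` and their evaluations have distance `O(t)` from the one at `y`. Choose a point
`y'` off `X` near a point of `G`, and a nearest point `z` of `T` to `y'`. Then most points of the
disc with centre `y'` and radius `|z - y'|` are in `G`, a contradiction. A Swiss cheese has a nonpeak
point by the Cauchy formula.
-/

open Filter Topology Set Metric Polynomial

namespace Pool.Agent.Results.MP_65d7a7_an.NoDerivation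

/-- The set of (restrictions to `X` of) rational functions with poles off `X`. -/
def ratSet (X : Set ℂ) : Set C(X, ℂ) :=
  {g | ∃ p q : ℂ[X], (∀ z ∈ X, q.eval z ≠ 0) ∧ ∀ z : X, g z = p.eval (z : ℂ) / q.eval (z : ℂ)}

/-- `R(X)` for compact `X`: the closure in `C(X)` of the set of rational functions with poles off
`X` (for compact `X` the topology of `C(X, ℂ)` is the one of uniform convergence). -/
def R (X : Set ℂ) : Set C(X, ℂ) := closure (ratSet X)

/-- `x` is a peak point for `R(X)`. -/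
def IsPeakPoint (X : Set ℂ) (x : X) : Prop :=
  ∃ f ∈ R X, f x = 1 ∧ ∀ y : X, y ≠ x → ‖f y‖ < 1

/-- The values of `D` on `R(X)` form a bounded point derivation on `R(X)` at `x`. -/
structure IsBoundedPointDerivation (X : Set ℂ) (x : X) (D : C(X, ℂ) → ℂ) : Prop where
  add : ∀ f ∈ R X, ∀ g ∈ R X, D (f + g) = D f + D g
  smul : ∀ c : ℂ, ∀ f ∈ R X, D (c • f) = c * D f
  mul : ∀ f ∈ R X, ∀ g ∈ R X, D (f * g) = f x * D g + g x * D f
  bound : ∃ K : ℝ, ∀ f ∈ R X, ∀ M : ℝ, (∀ z : X, ‖f z‖ ≤ M) → ‖D f‖ ≤ K * M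

/-- Swiss cheeses: a closed disc minus a sequence of open discs whose closures are pairwise
disjoint and contained in the open disc, with summable radii, and with empty interior. -/
def IsSwissCheese (X : Set ℂ) : Prop :=
  ∃ (c : ℂ) (ρ : ℝ) (a : ℕ → ℂ) (r : ℕ → ℝ), 0 < ρ ∧ (∀ n, 0 < r n) ∧
    (∀ n, closedBall (a n) (r n) ⊆ ball c ρ) ∧
    (∀ m n, m ≠ n → Disjoint (closedBall (a m) (r m)) (closedBall (a n) (r n))) ∧
    Summable r ∧ X = closedBall c ρ \ ⋃ n, ball (a n) (r n) ∧ interior X = ∅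

open Pool.Agent.H136R3

theorem ratSet_mul {X : Set ℂ} {f g : C(X, ℂ)} (hf : f ∈ ratSet X) (hg : g ∈ ratSet X) :
    f * g ∈ ratSet X := by
  obtain ⟨p, q, hq, hf⟩ := hf
  obtain ⟨p', q', hq', hg⟩ := hg
  refine ⟨p * p', q * q', fun z hz => ?_, fun z => ?_⟩
  · rw [eval_mul]; exact mul_ne_zero (hq z hz) (hq' z hz)
  · rw [ContinuousMap.mul_apply, hf z, hg z, eval_mul, eval_mul, div_mul_div_comm]

/-- powers stay in `R(X)` -/
theorem R_pow {X : Set ℂ} (hX : IsCompact X) {f : C(X, ℂ)} (hf : f ∈ R X) (n : ℕ) :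
    f ^ n ∈ R X := by
  have : CompactSpace X := isCompact_iff_compactSpace.1 hX
  have hmul : ∀ f ∈ R X, ∀ g ∈ R X, f * g ∈ R X := by
    intro f hf g hg
    exact map_mem_closure₂ continuous_mul hf hg fun a ha b hb => ratSet_mul ha hb
  induction n with
  | zero =>
    rw [pow_zero]
    exact subset_closure ⟨1, 1, fun z _ => by simp, fun z => by simp⟩
  | succ n ih => rw [pow_succ]; exact hmul _ ih _ hf

/-- passage from the algebra to functions on the plane -/
theorem exists_QX {X : Set ℂ} {g : C(X, ℂ)} (hg : g ∈ ratSet X) :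
    ∃ f ∈ QX X, ∀ z : X, f z = g z := by
  obtain ⟨p, q, hq, h⟩ := hg
  exact ⟨fun z => p.eval z / q.eval z, ⟨p, q, hq, fun z _ => rfl⟩, fun z => (h z).symm⟩

theorem restr_mem {X : Set ℂ} (f : QX X) : restr X f ∈ ratSet X := by
  obtain ⟨p, q, hq, h⟩ := f.2
  exact ⟨p, q, hq, fun z => h z (hq z z.2)⟩

/-- elements of `R(X)` are approximated by rational functions -/
theorem approx {X : Set ℂ} (hX : IsCompact X) {f : C(X, ℂ)} (hf : f ∈ R X) {ε : ℝ} (hε : 0 < ε) :
    ∃ g ∈ QX X, ∀ z : X, ‖g z - f z‖ ≤ ε := by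
  have : CompactSpace X := isCompact_iff_compactSpace.1 hX
  have h1 : f ∈ closure (ratSet X) := hf
  obtain ⟨g, hg, hgf⟩ := Metric.mem_closure_iff.1 h1 ε hε
  obtain ⟨F, hF, hFg⟩ := exists_QX hg
  refine ⟨F, hF, fun z => ?_⟩
  rw [hFg z, ← dist_eq_norm, dist_comm]
  exact (ContinuousMap.dist_apply_le_dist z).trans hgf.le

/-- points with evaluation near the one of a nonpeak point are nonpeak points -/
theorem nonpeak_of_close {X : Set ℂ} (hX : IsCompact X) {x₀ y : X} (hx₀ : ¬ IsPeakPoint X x₀)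
    (hcl : Cl X (1 / 2) x₀ y) : ¬ IsPeakPoint X y := by
  by_cases hxy : x₀ = y
  · rwa [← hxy]
  rintro ⟨f, hf, hfy, hlt⟩
  have h1 : ‖f x₀‖ < 1 := hlt x₀ hxy
  have hle : ∀ z, ‖f z‖ ≤ 1 := fun z => by
    by_cases hz : z = y
    · rw [hz, hfy, norm_one]
    · exact (hlt z hz).le
  obtain ⟨n, hn⟩ := exists_pow_lt_of_lt_one (show (0 : ℝ) < 1 / 4 by norm_num) h1
  obtain ⟨g, hg, hgf⟩ := approx hX (R_pow hX hf n) (show (0 : ℝ) < 1 / 16 by norm_num)
  have h2 := hcl g hg (17 / 16) (by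
    intro z hz
    have h3 := hgf ⟨z, hz⟩
    have h4 : ‖(f ^ n) ⟨z, hz⟩‖ ≤ 1 := by
      rw [ContinuousMap.pow_apply, norm_pow]
      exact pow_le_one₀ (norm_nonneg _) (hle _)
    have h5 : g z = (g z - (f ^ n) ⟨z, hz⟩) + (f ^ n) ⟨z, hz⟩ := by ring
    rw [h5]
    refine (norm_add_le _ _).trans ?_
    have h6 : ‖g z - (f ^ n) ⟨z, hz⟩‖ ≤ 1 / 16 := h3
    linarith)
  have h3 := hgf x₀
  have h4 := hgf y
  rw [ContinuousMap.pow_apply] at h3 h4
  rw [hfy, one_pow] at h4
  have h5 : ‖(f x₀) ^ n‖ < 1 / 4 := by rw [norm_pow]; exact hn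
  have h6 : (1 : ℂ) = (g x₀ - g y) * (-1) + (g x₀ - (f x₀) ^ n) + (f x₀) ^ n - (g y - 1) := by ring
  have h7 : (1 : ℝ) ≤ ‖g x₀ - g y‖ + ‖g x₀ - (f x₀) ^ n‖ + ‖(f x₀) ^ n‖ + ‖g y - 1‖ := by
    have h8 : ‖(1 : ℂ)‖ = 1 := norm_one
    rw [← h8]
    conv_lhs => rw [h6]
    refine (norm_sub_le _ _).trans (add_le_add ?_ le_rfl)
    refine (norm_add_le _ _).trans (add_le_add ?_ le_rfl)
    refine (norm_add_le _ _).trans (add_le_add ?_ le_rfl)
    rw [norm_mul, norm_neg, norm_one, mul_one]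
  -- a slightly better bound is needed: use that the sum is `3/4`-ish
  have h9 : g x₀ - g y = (g x₀ - (f x₀) ^ n) + (f x₀) ^ n - (g y - 1) - 1 := by ring
  linarith

/-- If the derivative at `y` is unbounded, then all bounded point derivations at `y` vanish. -/
theorem derivation_eq_zero {X : Set ℂ} (hX : IsCompact X) {y : X} (hy : ∀ K : ℝ, ¬ N2 X K y)
    {D : C(X, ℂ) → ℂ} (hD : IsBoundedPointDerivation X y D) : ∀ f ∈ R X, D f = 0 := by
  have : CompactSpace X := isCompact_iff_compactSpace.1 hX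
  obtain ⟨hadd, hsmul, hmul, B, hB⟩ := hD
  have hE : ∀ f : QX X, restr X f ∈ R X := fun f => subset_closure (restr_mem f)
  have hone' : (1 : C(X, ℂ)) ∈ R X := subset_closure ⟨1, 1, fun z _ => by simp, fun z => by simp⟩
  have hone : D 1 = 0 := by
    have h1 := hmul 1 hone' 1 hone'
    rw [mul_one] at h1
    simp only [ContinuousMap.one_apply, one_mul] at h1
    linear_combination -h1
  let Z : QX X := ⟨fun z => z - (y : ℂ), QX.id_sub_mem X y⟩
  obtain ⟨d, hd⟩ : ∃ d, d = D (restr X Z) := ⟨_, rfl⟩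
  have key : ∀ f : QX X, D (restr X f) = deriv f.1 y * d := by
    intro f
    obtain ⟨p, q, hq, hfq⟩ := f.2
    -- division
    have hroot : (Polynomial.X - C (y : ℂ)) ∣ (p * C (q.eval (y : ℂ)) - C (p.eval (y : ℂ)) * q) := by
      rw [dvd_iff_isRoot, IsRoot.def]
      simp [mul_comm]
    obtain ⟨s, hs⟩ := hroot
    have hqw := hq y y.2
    let h : QX X := ⟨fun z => s.eval z / (q.eval z * q.eval (y : ℂ)),
      ⟨s, q * C (q.eval (y : ℂ)), fun z hz => by
        rw [eval_mul, eval_C]; exact mul_ne_zero (hq z hz) hqw, fun z _ => by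
        rw [eval_mul, eval_C]⟩⟩
    have hid : ∀ z, q.eval z ≠ 0 → f.1 z = f.1 y + (z - y) * h.1 z := by
      intro z hqz
      have h1 := congrArg (fun r : ℂ[X] => r.eval z) hs
      simp only [eval_sub, eval_mul, eval_C, eval_X] at h1
      change f.1 z = f.1 y + (z - y) * (s.eval z / (q.eval z * q.eval (y : ℂ)))
      rw [mul_div_assoc', ← h1, hfq z hqz, hfq y hqw]
      field_simp
      ring
    have hder : deriv f.1 y = h.1 y := by
      have h2 : ∀ᶠ z in 𝓝 (y : ℂ), q.eval z ≠ 0 := q.continuous.continuousAt.eventually_ne hqw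
      have h3 : f.1 =ᶠ[𝓝 (y : ℂ)] fun z => f.1 y + (z - y) * h.1 z := by
        filter_upwards [h2] with z hz using hid z hz
      rw [h3.deriv_eq]
      have h4 : HasDerivAt (fun z : ℂ => z - (y : ℂ)) 1 y := (hasDerivAt_id' _).sub_const _
      have h5 := (h4.fun_mul (QX.differentiableAt h.2 y.2).hasDerivAt).const_add (f.1 y)
      have h6 := h5.deriv
      simpa using h6
    have hEf : restr X f = (f.1 y) • (1 : C(X, ℂ)) + restr X Z * restr X h := by
      apply ContinuousMap.ext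
      intro z
      change f.1 z = f.1 y * 1 + ((z : ℂ) - y) * h.1 z
      rw [hid z (hq z z.2), mul_one]
    have hm1 : (f.1 y) • (1 : C(X, ℂ)) ∈ R X :=
      subset_closure ⟨C (f.1 y), 1, fun z _ => by simp, fun z => by simp⟩
    have hm2 : restr X Z * restr X h ∈ R X :=
      subset_closure (ratSet_mul (restr_mem Z) (restr_mem h))
    rw [hEf, hadd _ hm1 _ hm2, hsmul _ _ hone', hone, mul_zero, zero_add,
      hmul _ (hE Z) _ (hE h), hder, ← hd]
    change ((y : ℂ) - y) * D (restr X h) + h.1 y * d = h.1 y * d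
    rw [sub_self, zero_mul, zero_add]
  -- boundedness gives a bound of the derivative unless `d = 0`
  have hd0 : d = 0 := by
    by_contra hd0
    apply hy (B / ‖d‖)
    intro f hf M hM
    have hdpos : 0 < ‖d‖ := norm_pos_iff.2 hd0
    have h5 := hB _ (hE ⟨f, hf⟩) M (fun z => hM z z.2)
    rw [key, norm_mul] at h5
    change ‖deriv f y‖ * ‖d‖ ≤ B * M at h5
    rw [div_mul_eq_mul_div, le_div_iff₀ hdpos]
    exact h5
  -- `D` vanishes on a dense set
  have hzero : ∀ f : QX X, D (restr X f) = 0 := fun f => by rw [key, hd0, mul_zero]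
  intro F hF
  have hB1 : ∀ ε : ℝ, 0 < ε → ‖D F‖ ≤ |B| * ε := by
    intro ε hε
    obtain ⟨g, hg, hgF⟩ := Metric.mem_closure_iff.1 hF ε hε
    obtain ⟨f, hf, hfg⟩ := exists_QX hg
    have h2 : restr X ⟨f, hf⟩ = g := ContinuousMap.ext fun z => hfg z
    have h3 : (-1 : ℂ) • g ∈ ratSet X := by
      obtain ⟨p, q, hq, h⟩ := hg
      refine ⟨-p, q, hq, fun z => ?_⟩
      rw [ContinuousMap.smul_apply, h z, eval_neg, smul_eq_mul]
      ring
    have hgR : g ∈ R X := subset_closure hg
    have h4 : D F = D (F + (-1 : ℂ) • g) := by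
      rw [hadd F hF _ (subset_closure h3), hsmul _ _ hgR, ← h2, hzero, mul_zero, add_zero]
    have hFg : F + (-1 : ℂ) • g ∈ R X := by
      have h6 : ∀ u ∈ R X, ∀ v ∈ R X, u + v ∈ R X := by
        intro u hu v hv
        refine map_mem_closure₂ continuous_add hu hv fun a ha b hb => ?_
        obtain ⟨p, q, hq, hf⟩ := ha
        obtain ⟨p', q', hq', hg⟩ := hb
        refine ⟨p * q' + q * p', q * q', fun z hz => ?_, fun z => ?_⟩
        · rw [eval_mul]; exact mul_ne_zero (hq z hz) (hq' z hz)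
        · rw [ContinuousMap.add_apply, hf z, hg z, eval_add, eval_mul, eval_mul, eval_mul,
            div_add_div _ _ (hq z z.2) (hq' z z.2)]
      exact h6 F hF _ (subset_closure h3)
    have h5 := hB _ hFg ε (fun z => by
      have h7 := (ContinuousMap.dist_apply_le_dist (f := F) (g := g) z).trans hgF.le
      rw [dist_eq_norm] at h7
      have h8 : (F + (-1 : ℂ) • g) z = F z - g z := by
        rw [ContinuousMap.add_apply, ContinuousMap.smul_apply, smul_eq_mul]; ring
      rw [h8]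
      exact h7)
    rw [h4]
    exact h5.trans (mul_le_mul_of_nonneg_right (le_abs_self B) hε.le)
  have h6 : ‖D F‖ ≤ 0 := by
    apply le_of_forall_pos_le_add
    intro ε hε
    have h7 := hB1 (ε / (|B| + 1)) (by positivity)
    refine h7.trans ?_
    rw [zero_add, mul_div_assoc', div_le_iff₀ (by positivity)]
    nlinarith [abs_nonneg B]
  exact norm_le_zero_iff.1 h6

/-- A Swiss cheese has a nonpeak point. -/
theorem exists_nonpeak {X : Set ℂ} (hX : IsSwissCheese X) (hcomp : IsCompact X) :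
    ∃ w : X, ¬ IsPeakPoint X w := by
  obtain ⟨c, ρ, a, r, hρ, hr, hin, hdisj, hs, hXeq, -⟩ := hX
  obtain ⟨w, hw, hw2, hsum⟩ := exists_good_point hρ hr hs hin
  have hwX : w ∈ X := by
    rw [hXeq]
    refine ⟨ball_subset_closedBall hw, fun h => ?_⟩
    obtain ⟨n, hn⟩ := mem_iUnion.1 h
    exact hw2 n (ball_subset_closedBall hn)
  refine ⟨⟨w, hwX⟩, ?_⟩
  rintro ⟨f, hf, hfw, hlt⟩
  have hgt : ∀ n, r n < ‖a n - w‖ := by
    intro n
    have := hw2 n
    rw [mem_closedBall, not_le, dist_comm, dist_eq_norm] at this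
    exact this
  -- the tail
  obtain ⟨N, hN⟩ : ∃ N, ∑' n, r (n + N) / (‖a (n + N) - w‖ - r (n + N)) < 1 / 8 := by
    have h1 := tendsto_sum_nat_add fun n => r n / (‖a n - w‖ - r n)
    exact (h1.eventually (gt_mem_nhds (by norm_num))).exists
  set tail := ∑' n, r (n + N) / (‖a (n + N) - w‖ - r (n + N)) with htail
  have htail0 : 0 ≤ tail := tsum_nonneg fun n => div_nonneg (hr _).le (by linarith [hgt (n + N)])
  set A := ρ / (ρ - ‖w - c‖) + ∑ n ∈ Finset.range N, r n / (‖a n - w‖ - r n) with hA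
  have hA0 : 0 ≤ A := by
    have h1 : 0 < ρ - ‖w - c‖ := by rw [mem_ball, dist_eq_norm] at hw; linarith
    have h2 : 0 ≤ ∑ n ∈ Finset.range N, r n / (‖a n - w‖ - r n) :=
      Finset.sum_nonneg fun n _ => div_nonneg (hr n).le (by linarith [hgt n])
    positivity
  -- the compact set of the first circles
  set L : Set ℂ := sphere c ρ ∪ ⋃ n ∈ Finset.range N, sphere (a n) (r n) with hL
  have hLc : IsCompact L := (isCompact_sphere c ρ).union
    ((Finset.range N).isCompact_biUnion fun n _ => isCompact_sphere _ _)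
  have hsph : ∀ n, sphere (a n) (r n) ⊆ X := by
    intro n z hz
    rw [hXeq]
    refine ⟨ball_subset_closedBall (hin n (sphere_subset_closedBall hz)), fun h => ?_⟩
    obtain ⟨m, hm⟩ := mem_iUnion.1 h
    by_cases hmn : m = n
    · subst hmn
      rw [mem_ball, mem_sphere.1 hz] at hm
      exact lt_irrefl _ hm
    · exact Set.disjoint_left.1 (hdisj m n hmn) (ball_subset_closedBall hm)
        (sphere_subset_closedBall hz)
  have hsph0 : sphere c ρ ⊆ X := by
    intro z hz
    rw [hXeq]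
    refine ⟨sphere_subset_closedBall hz, fun h => ?_⟩
    obtain ⟨m, hm⟩ := mem_iUnion.1 h
    have := hin m (ball_subset_closedBall hm)
    rw [mem_ball, mem_sphere.1 hz] at this
    exact lt_irrefl _ this
  have hLX : L ⊆ X := union_subset hsph0 (iUnion₂_subset fun n _ => hsph n)
  have hwL : w ∉ L := by
    rintro (h | h)
    · rw [mem_ball, mem_sphere.1 h] at hw
      exact lt_irrefl _ hw
    · obtain ⟨n, _, hn⟩ := mem_iUnion₂.1 h
      exact hw2 n (sphere_subset_closedBall hn)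
  -- a bound `θ < 1` on the first circles
  obtain ⟨θ, hθ0, hθ1, hθ⟩ : ∃ θ : ℝ, 0 ≤ θ ∧ θ < 1 ∧ ∀ z (hz : z ∈ L), ‖f ⟨z, hLX hz⟩‖ ≤ θ := by
    have hne : L.Nonempty := by
      refine ⟨c + ρ, Or.inl ?_⟩
      rw [mem_sphere, dist_eq_norm, add_sub_cancel_left, Complex.norm_real,
        Real.norm_of_nonneg hρ.le]
    have : CompactSpace L := isCompact_iff_compactSpace.1 hLc
    have : Nonempty L := hne.to_subtype
    have hcont : Continuous fun z : L => ‖f ⟨z, hLX z.2⟩‖ := by
      have h1 : Continuous fun z : L => (⟨z, hLX z.2⟩ : X) := by fun_prop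
      exact (f.continuous.comp h1).norm
    obtain ⟨z₀, -, hz₀⟩ := isCompact_univ.exists_isMaxOn univ_nonempty hcont.continuousOn
    refine ⟨‖f ⟨z₀, hLX z₀.2⟩‖, norm_nonneg _, ?_, fun z hz => hz₀ (mem_univ ⟨z, hz⟩)⟩
    apply hlt
    intro h
    have h2 : (z₀ : ℂ) = w := congrArg Subtype.val h
    exact hwL (h2 ▸ z₀.2)
  have hle : ∀ z, ‖f z‖ ≤ 1 := fun z => by
    by_cases hz : z = ⟨w, hwX⟩
    · rw [hz, hfw, norm_one]
    · exact (hlt z hz).le
  obtain ⟨m, hm⟩ := exists_pow_lt_of_lt_one (show (0 : ℝ) < 1 / (8 * (A + 1)) by positivity) hθ1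
  obtain ⟨ε, hε, hεA, hε1⟩ : ∃ ε : ℝ, 0 < ε ∧ ε * A ≤ 1 / 8 ∧ ε ≤ 1 / 8 := by
    refine ⟨1 / (8 * (A + 1)), by positivity, ?_, ?_⟩
    · rw [div_mul_eq_mul_div, div_le_div_iff₀ (by positivity) (by norm_num)]; linarith
    · rw [div_le_div_iff₀ (by positivity) (by norm_num)]; linarith
  obtain ⟨g, hg, hgf⟩ := approx hcomp (R_pow hcomp hf m) hε
  have hgb : ∀ z (hz : z ∈ X), ‖g z‖ ≤ ‖f ⟨z, hz⟩‖ ^ m + ε := by
    intro z hz
    have h3 := hgf ⟨z, hz⟩
    have h5 : g z = (f ^ m) ⟨z, hz⟩ + (g z - (f ^ m) ⟨z, hz⟩) := by ring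
    rw [h5]
    refine (norm_add_le _ _).trans (add_le_add ?_ h3)
    rw [ContinuousMap.pow_apply, norm_pow]
  have hmain := norm_bound (w := w) hρ hr hin hdisj hXeq hw hw2 hsum hg N
    (M₁ := θ ^ m + ε) (M₂ := 1 + ε)
    (fun z hz => (hgb z (hsph0 hz)).trans (by
      gcongr
      exact hθ z (Or.inl hz)))
    (fun n hn z hz => (hgb z (hsph n hz)).trans (by
      gcongr
      exact hθ z (Or.inr (mem_iUnion₂.2 ⟨n, Finset.mem_range.2 hn, hz⟩))))
    (fun z hz => (hgb z hz).trans (by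
      gcongr
      exact pow_le_one₀ (norm_nonneg _) (hle _)))
  have hgw : 1 - ε ≤ ‖g w‖ := by
    have h3 := hgf ⟨w, hwX⟩
    rw [ContinuousMap.pow_apply, hfw, one_pow] at h3
    have h4 : (1 : ℂ) = g w - (g w - 1) := by ring
    have h5 : ‖(1 : ℂ)‖ ≤ ‖g w‖ + ‖g w - 1‖ := by
      conv_lhs => rw [h4]
      exact norm_sub_le _ _
    rw [norm_one] at h5
    have h6 : ‖g w - 1‖ ≤ ε := h3
    linarith
  have h7 : θ ^ m * A ≤ 1 / 8 := by
    have h8 : θ ^ m * A ≤ 1 / (8 * (A + 1)) * A := mul_le_mul_of_nonneg_right hm.le hA0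
    have h9 : 1 / (8 * (A + 1)) * A ≤ 1 / 8 := by
      rw [div_mul_eq_mul_div, div_le_div_iff₀ (by positivity) (by norm_num)]; linarith
    linarith
  rw [← hA, ← htail] at hmain
  nlinarith

/-- Swiss cheeses are compact. -/
theorem IsSwissCheese.isCompact {X : Set ℂ} (hX : IsSwissCheese X) : IsCompact X := by
  obtain ⟨c, ρ, a, r, -, -, -, -, -, hXeq, -⟩ := hX
  rw [hXeq]
  exact (isCompact_closedBall c ρ).diff (isOpen_iUnion fun n => isOpen_ball)

/-- For every Swiss cheese `X` there is a nonpeak point for `R(X)` at which every bounded point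
derivation on `R(X)` is zero. -/
theorem result (X : Set ℂ) (hX : IsSwissCheese X) :
    ∃ x : X, ¬ IsPeakPoint X x ∧
      ∀ D : C(X, ℂ) → ℂ, IsBoundedPointDerivation X x D → ∀ f ∈ R X, D f = 0 := by
  have hcomp : IsCompact X := hX.isCompact
  have hint : interior X = ∅ := by
    obtain ⟨c, ρ, a, r, -, -, -, -, -, -, h⟩ := hX
    exact h
  obtain ⟨x₀, hx₀⟩ := exists_nonpeak hX hcomp
  obtain ⟨y, hyX, hcl, hN2⟩ := exists_unbounded hcomp hint x₀.2
  refine ⟨⟨y, hyX⟩, nonpeak_of_close hcomp hx₀ hcl, fun D hD => ?_⟩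
  exact derivation_eq_zero hcomp hN2 hD

end Pool.Agent.Results.MP_65d7a7_an.NoDerivation
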